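import Mathlib

/-!
# Earth mover's distance under a random relabeling of the cube: there is no universal constant

Question Q1 of the problem asks for a constant `c > 0` such that for every property `D` of
distributions on the cube that is closed under mapping, every `ε > 0` and every `X` which is
`ε`-far from `D`, the relabeled distribution `π(X)` is `c ε`-far from `D` with high probability.
The answer is no.

The property is `light θ m`: the atoms of probability less than `θ` have together probability at
most `m`. The distribution `X` has `2 t` heavy atoms of probability `K ζ` (the set `B`), and a light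
atom of probability `ζ` at every point at a distance greater than `2 r` from `B`, where
`K = 2 (n + 1) ^ r` is at least twice the size of the balls of radius `r`.
-/

set_option autoImplicit false

namespace Pool.Agent.Results.MP_3e89d2_lc.NoUniversalConstant

open Finset Filter Topology

/-- The cube `{0, 1} ^ n`. -/
abbrev Cube (n : ℕ) := Fin n → Bool

/-- `P` is a probability distribution on the cube. -/
def IsDist {n : ℕ} (P : Cube n → ℝ) : Prop := (∀ x, 0 ≤ P x) ∧ ∑ x, P x = 1

/-- The relative Hamming distance. -/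
noncomputable def relDist {n : ℕ} (x y : Cube n) : ℝ := (hammingDist x y : ℝ) / n

/-- `w` is a coupling (transport plan) of `P` and `Q`. -/
structure IsCoupling {n : ℕ} (P Q : Cube n → ℝ) (w : Cube n → Cube n → ℝ) : Prop where
  nonneg : ∀ x y, 0 ≤ w x y
  left : ∀ x, ∑ y, w x y = P x
  right : ∀ y, ∑ x, w x y = Q y

/-- The cost of a transport plan. -/
noncomputable def cost {n : ℕ} (w : Cube n → Cube n → ℝ) : ℝ := ∑ x, ∑ y, w x y * relDist x y

/-- The earth mover's distance with respect to the relative Hamming distance: the least cost of a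
coupling. -/
noncomputable def emd {n : ℕ} (P Q : Cube n → ℝ) : ℝ :=
  sInf {c : ℝ | ∃ w, IsCoupling P Q w ∧ cost w = c}

/-- The distribution of `f` applied to a sample of `P`. -/
noncomputable def map {n : ℕ} (f : Cube n → Cube n) (P : Cube n → ℝ) : Cube n → ℝ :=
  fun y => ∑ x with f x = y, P x

/-- The property `D` is closed under mapping. -/
def ClosedUnderMapping {n : ℕ} (D : Set (Cube n → ℝ)) : Prop :=
  ∀ Y ∈ D, ∀ f : Cube n → Cube n, map f Y ∈ D

/-- `X` is `ε`-far from `D`. -/
def Far {n : ℕ} (D : Set (Cube n → ℝ)) (ε : ℝ) (X : Cube n → ℝ) : Prop :=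
  ∀ Y ∈ D, ε ≤ emd X Y

open Classical in
/-- The number of the bijections `π` of the cube for which `π(X)` is `ε`-far from `D`. -/
noncomputable def numFar {n : ℕ} (D : Set (Cube n → ℝ)) (ε : ℝ) (X : Cube n → ℝ) : ℕ :=
  (univ.filter fun π : Equiv.Perm (Cube n) => Far D ε (map π X)).card

/-- The statement of question Q1: there is a universal constant `c > 0` such that, for all `n`, all
properties `D` of distributions on `{0, 1} ^ n` which are closed under mapping, all `ε > 0` and all
distributions `X` which are `ε`-far from `D`, the distribution `π(X)` is `c ε`-far from `D` with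
probability `1 - o(1)` over a random bijection `π`, uniformly in `D`, `X` and `ε`. -/
def Q1 : Prop :=
  ∃ c : ℝ, 0 < c ∧ ∃ δ : ℕ → ℝ, Tendsto δ atTop (𝓝 0) ∧
    ∀ n : ℕ, 1 ≤ n → ∀ D : Set (Cube n → ℝ), (∀ Y ∈ D, IsDist Y) → ClosedUnderMapping D →
      ∀ ε : ℝ, 0 < ε → ∀ X : Cube n → ℝ, IsDist X → Far D ε X →
        (1 - δ n) * (Fintype.card (Equiv.Perm (Cube n)) : ℝ) ≤ (numFar D (c * ε) X : ℝ)

/-! ### Basic facts -/

lemma relDist_nonneg {n : ℕ} (x y : Cube n) : 0 ≤ relDist x y := by
  unfold relDist
  positivity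

lemma cost_nonneg {n : ℕ} {P Q : Cube n → ℝ} {w : Cube n → Cube n → ℝ} (h : IsCoupling P Q w) :
    0 ≤ cost w :=
  sum_nonneg fun x _ => sum_nonneg fun y _ => mul_nonneg (h.nonneg x y) (relDist_nonneg x y)

lemma emd_le {n : ℕ} {P Q : Cube n → ℝ} {w : Cube n → Cube n → ℝ} (h : IsCoupling P Q w) :
    emd P Q ≤ cost w := by
  refine csInf_le ⟨0, ?_⟩ ⟨w, h, rfl⟩
  rintro c ⟨w', h', rfl⟩
  exact cost_nonneg h'

lemma le_emd {n : ℕ} {P Q : Cube n → ℝ} (hP : IsDist P) (hQ : IsDist Q) {ε : ℝ}
    (h : ∀ w, IsCoupling P Q w → ε ≤ cost w) : ε ≤ emd P Q := by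
  refine le_csInf ⟨_, fun x y => P x * Q y, ⟨?_, ?_, ?_⟩, rfl⟩ ?_
  · intro x y
    exact mul_nonneg (hP.1 x) (hQ.1 y)
  · intro x
    rw [← mul_sum, hQ.2, mul_one]
  · intro y
    rw [← sum_mul, hP.2, one_mul]
  · rintro c ⟨w, hw, rfl⟩
    exact h w hw

lemma map_nonneg {n : ℕ} (f : Cube n → Cube n) {P : Cube n → ℝ} (hP : ∀ x, 0 ≤ P x) (y : Cube n) :
    0 ≤ map f P y := sum_nonneg fun x _ => hP x

lemma le_map {n : ℕ} (f : Cube n → Cube n) {P : Cube n → ℝ} (hP : ∀ x, 0 ≤ P x) (x : Cube n) :
    P x ≤ map f P (f x) := by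
  unfold map
  exact single_le_sum (f := P) (fun i _ => hP i) (by simp)

lemma sum_map {n : ℕ} (f : Cube n → Cube n) (P : Cube n → ℝ) (q : Cube n → Prop)
    [DecidablePred q] : ∑ y with q y, map f P y = ∑ x with q (f x), P x := by
  classical
  unfold map
  have h := sum_fiberwise_of_maps_to (s := univ.filter fun x : Cube n => q (f x))
    (t := univ.filter fun y : Cube n => q y) (g := f) (fun x hx => by simpa using hx) P
  rw [← h]
  refine sum_congr rfl fun y hy => ?_
  refine sum_congr ?_ fun _ _ => rfl
  ext x
  simp only [mem_filter, mem_univ, true_and] at hy ⊢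
  constructor
  · rintro rfl
    exact ⟨hy, rfl⟩
  · exact fun h => h.2

lemma map_isDist {n : ℕ} (f : Cube n → Cube n) {P : Cube n → ℝ} (hP : IsDist P) :
    IsDist (map f P) := by
  refine ⟨map_nonneg f hP.1, ?_⟩
  have h := sum_map f P (fun _ => True)
  simpa [hP.2] using h

lemma map_perm {n : ℕ} (π : Equiv.Perm (Cube n)) (P : Cube n → ℝ) (z : Cube n) :
    map π P z = P (π.symm z) := by
  unfold map
  have : (univ.filter fun x : Cube n => π x = z) = {π.symm z} := by
    ext x
    simp [Equiv.eq_symm_apply]
  rw [this, sum_singleton]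

/-- The property that the atoms of probability less than `θ` have together probability at most
`m`. -/
def light {n : ℕ} (θ m : ℝ) : Set (Cube n → ℝ) :=
  {Y | IsDist Y ∧ ∑ y with Y y < θ, Y y ≤ m}

lemma light_closed {n : ℕ} (θ m : ℝ) : ClosedUnderMapping (light (n := n) θ m) := by
  rintro Y ⟨hY, hm⟩ f
  refine ⟨map_isDist f hY, le_trans ?_ hm⟩
  rw [sum_map f Y (fun y => map f Y y < θ)]
  refine sum_le_sum_of_subset_of_nonneg ?_ fun x _ _ => hY.1 x
  intro x hx
  simp only [mem_filter, mem_univ, true_and] at hx ⊢
  exact lt_of_le_of_lt (le_map f hY.1 x) hx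

/-- The distribution with heavy atoms of probability `K ζ` on `B` and light atoms of probability
`ζ` on `L`. -/
noncomputable def two {n : ℕ} (B L : Finset (Cube n)) (K ζ : ℝ) : Cube n → ℝ :=
  fun x => if x ∈ B then K * ζ else if x ∈ L then ζ else 0

/-- The lower bound. -/
lemma lower {n r : ℕ} (B L : Finset (Cube n)) (hBL : ∀ x ∈ B, ∀ y ∈ L, 2 * r < hammingDist x y)
    {K ζ V t : ℝ} (hζ : 0 < ζ)
    (hV : ∀ y : Cube n, ((univ.filter fun x => hammingDist x y ≤ r).card : ℝ) ≤ V)
    (hK : 2 * V ≤ K) {Y : Cube n → ℝ}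
    (hm : ∑ y with Y y < K * ζ, Y y ≤ (L.card - t) * ζ)
    {w : Cube n → Cube n → ℝ} (hw : IsCoupling (two B L K ζ) Y w) :
    ((r : ℝ) + 1) / n * (t * ζ / 2) ≤ cost w := by
  classical
  -- the mass which is moved far
  set F : ℝ := ∑ x, ∑ y, (if r < hammingDist x y then w x y else 0) with hF
  have h1 : ((r : ℝ) + 1) / n * F ≤ cost w := by
    rw [hF, mul_sum]
    unfold cost
    refine sum_le_sum fun x _ => ?_
    rw [mul_sum]
    refine sum_le_sum fun y _ => ?_
    have hwn := hw.nonneg x y
    split_ifs with h
    · rw [mul_comm]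
      refine mul_le_mul_of_nonneg_left ?_ hwn
      unfold relDist
      refine div_le_div_of_nonneg_right ?_ (Nat.cast_nonneg n)
      exact_mod_cast h
    · rw [mul_zero]
      exact mul_nonneg hwn (relDist_nonneg x y)
  have hnotB : ∀ x ∈ L, x ∉ B := by
    intro x hx hxB
    have := hBL x hxB x hx
    simp at this
  have h2 : (L.card : ℝ) * ζ = ∑ x ∈ L, ∑ y, w x y := by
    rw [← nsmul_eq_mul, ← sum_const]
    refine sum_congr rfl fun x hx => ?_
    rw [hw.left x]
    unfold two
    rw [if_neg (hnotB x hx), if_pos hx]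
  have h3 : ∑ x ∈ L, ∑ y, w x y ≤ F + ∑ y, ∑ x ∈ L, (if hammingDist x y ≤ r then w x y else 0) := by
    rw [sum_comm (s := univ) (t := L)]
    have h31 : ∑ x ∈ L, ∑ y, (if r < hammingDist x y then w x y else 0) ≤ F := by
      rw [hF]
      refine sum_le_sum_of_subset_of_nonneg (subset_univ _) fun x _ _ => ?_
      refine sum_nonneg fun y _ => ?_
      split_ifs
      · exact hw.nonneg x y
      · exact le_rfl
    refine le_trans (le_of_eq ?_) (add_le_add_left h31 _)
    rw [← sum_add_distrib]
    refine sum_congr rfl fun x _ => ?_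
    rw [← sum_add_distrib]
    refine sum_congr rfl fun y _ => ?_
    by_cases h : r < hammingDist x y
    · rw [if_pos h, if_neg (not_le.2 h), add_zero]
    · rw [if_neg h, if_pos (not_lt.1 h), zero_add]
  have h4 : ∀ y, ∑ x ∈ L, (if hammingDist x y ≤ r then w x y else 0) ≤
      (if Y y < K * ζ then Y y else 0) + ∑ x, (if r < hammingDist x y then w x y else 0) := by
    intro y
    have hfar : 0 ≤ ∑ x, (if r < hammingDist x y then w x y else 0) := by
      refine sum_nonneg fun x _ => ?_
      split_ifs
      · exact hw.nonneg x y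
      · exact le_rfl
    have hLle : ∑ x ∈ L, (if hammingDist x y ≤ r then w x y else 0) ≤
        ∑ x, (if hammingDist x y ≤ r then w x y else 0) := by
      refine sum_le_sum_of_subset_of_nonneg (subset_univ _) fun x _ _ => ?_
      split_ifs
      · exact hw.nonneg x y
      · exact le_rfl
    have hsum : ∑ x, (if hammingDist x y ≤ r then w x y else 0) +
        ∑ x, (if r < hammingDist x y then w x y else 0) = Y y := by
      rw [← hw.right y, ← sum_add_distrib]
      refine sum_congr rfl fun x _ => ?_
      by_cases h : r < hammingDist x y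
      · rw [if_pos h, if_neg (not_le.2 h), zero_add]
      · rw [if_neg h, if_pos (not_lt.1 h), add_zero]
    by_cases hY : Y y < K * ζ
    · rw [if_pos hY]
      linarith
    · rw [if_neg hY, zero_add]
      push Not at hY
      by_cases hex : ∃ x ∈ L, hammingDist x y ≤ r
      · obtain ⟨x₀, hx₀, hd₀⟩ := hex
        have hnear : ∑ x, (if hammingDist x y ≤ r then w x y else 0) ≤ V * ζ := by
          rw [← sum_filter]
          calc ∑ x with hammingDist x y ≤ r, w x y
              ≤ ∑ x with hammingDist x y ≤ r, ζ := by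
                refine sum_le_sum fun x hx => ?_
                have hxd : hammingDist x y ≤ r := by simpa using hx
                have hxB : x ∉ B := by
                  intro hxB
                  have ha := hBL x hxB x₀ hx₀
                  have hb := hammingDist_triangle x y x₀
                  have hc : hammingDist y x₀ = hammingDist x₀ y := hammingDist_comm _ _
                  omega
                have hle : w x y ≤ two B L K ζ x := by
                  rw [← hw.left x]
                  exact single_le_sum (f := fun y => w x y) (fun i _ => hw.nonneg x i)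
                    (mem_univ y)
                refine hle.trans ?_
                unfold two
                rw [if_neg hxB]
                split_ifs
                · exact le_rfl
                · exact hζ.le
            _ = ((univ.filter fun x => hammingDist x y ≤ r).card : ℝ) * ζ := by
                rw [sum_const, nsmul_eq_mul]
            _ ≤ V * ζ := mul_le_mul_of_nonneg_right (hV y) hζ.le
        have h5 : 2 * (V * ζ) ≤ K * ζ := by
          have := mul_le_mul_of_nonneg_right hK hζ.le
          linarith
        linarith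
      · push Not at hex
        rw [sum_eq_zero]
        · exact hfar
        · intro x hx
          rw [if_neg (not_le.2 (hex x hx))]
  have h5 : ∑ y, ∑ x ∈ L, (if hammingDist x y ≤ r then w x y else 0) ≤
      (L.card - t) * ζ + F := by
    calc ∑ y, ∑ x ∈ L, (if hammingDist x y ≤ r then w x y else 0)
        ≤ ∑ y, ((if Y y < K * ζ then Y y else 0) +
            ∑ x, (if r < hammingDist x y then w x y else 0)) := sum_le_sum fun y _ => h4 y
      _ = ∑ y with Y y < K * ζ, Y y + F := by
          rw [sum_add_distrib, sum_filter, hF, sum_comm]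
      _ ≤ _ := by linarith
  have h6 : t * ζ / 2 ≤ F := by linarith
  refine le_trans (mul_le_mul_of_nonneg_left h6 (by positivity)) h1

/-- The upper bound. -/
lemma upper {n : ℕ} (B L : Finset (Cube n)) (hdis : ∀ x ∈ L, x ∉ B) {K ζ t : ℝ} (hζ : 0 < ζ)
    (hX : IsDist (two B L K ζ)) (φ : Cube n → Cube n) (hφ : ∀ z, φ (φ z) = z)
    (hφd : ∀ z, hammingDist z (φ z) ≤ 1) (π : Equiv.Perm (Cube n))
    (ht : t ≤ ((univ.filter fun z => π.symm z ∈ L ∧ π.symm (φ z) ∈ B).card : ℝ)) :
    ∃ Y ∈ light (n := n) (K * ζ) ((L.card - t) * ζ),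
      emd (map π (two B L K ζ)) Y ≤ B.card * ζ / n := by
  classical
  set X := two B L K ζ with hXdef
  set P := univ.filter fun z => π.symm z ∈ L ∧ π.symm (φ z) ∈ B with hP
  set g : Cube n → Cube n := fun z => if z ∈ P then φ z else z with hg
  set X' := map π X with hX'
  have hX'd : IsDist X' := map_isDist _ hX
  have hX'v : ∀ z, X' z = X (π.symm z) := fun z => map_perm π X z
  have hφinj : Function.Injective φ := fun a b h => by rw [← hφ a, ← hφ b, h]
  have hPcard : P.card ≤ B.card := by
    refine card_le_card_of_injOn (fun z => π.symm (φ z)) ?_ ?_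
    · intro z hz
      have : z ∈ P := hz
      rw [hP] at this
      simp only [mem_filter, mem_univ, true_and] at this
      exact this.2
    · intro z _ z' _ h
      exact hφinj (π.symm.injective h)
  refine ⟨map g X', ⟨map_isDist g hX'd, ?_⟩, ?_⟩
  · rw [sum_map g X' (fun y => map g X' y < K * ζ)]
    have hsub : (univ.filter fun z => map g X' (g z) < K * ζ) ⊆
        univ.filter fun z => z ∉ P ∧ π.symm z ∉ B := by
      intro z hz
      simp only [mem_filter, mem_univ, true_and] at hz ⊢
      constructor
      · intro hzP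
        have hzP' := hzP
        rw [hP] at hzP'
        simp only [mem_filter, mem_univ, true_and] at hzP'
        have hnP : φ z ∉ P := by
          intro h
          rw [hP] at h
          simp only [mem_filter, mem_univ, true_and] at h
          exact hdis _ h.1 hzP'.2
        have hgz : g z = φ z := by rw [hg]; simp [hzP]
        have hgz' : g (φ z) = φ z := by rw [hg]; simp [hnP]
        have h1 := le_map g hX'd.1 (φ z)
        rw [hgz'] at h1
        rw [hgz] at hz
        have h2 : X' (φ z) = K * ζ := by
          rw [hX'v, hXdef]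
          unfold two
          rw [if_pos hzP'.2]
        linarith
      · intro hzB
        have hnP : z ∉ P := by
          intro h
          rw [hP] at h
          simp only [mem_filter, mem_univ, true_and] at h
          exact hdis _ h.1 hzB
        have hgz : g z = z := by rw [hg]; simp [hnP]
        have h1 := le_map g hX'd.1 z
        rw [hgz] at h1 hz
        have h2 : X' z = K * ζ := by
          rw [hX'v, hXdef]
          unfold two
          rw [if_pos hzB]
        linarith
    have h1 : ∑ z with map g X' (g z) < K * ζ, X' z ≤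
        ∑ z with z ∉ P ∧ π.symm z ∉ B, X' z :=
      sum_le_sum_of_subset_of_nonneg hsub fun z _ _ => hX'd.1 z
    refine h1.trans ?_
    have h2 : ∑ z with z ∉ P ∧ π.symm z ∉ B, X' z ≤
        ∑ z with z ∉ P ∧ π.symm z ∈ L, ζ := by
      rw [sum_filter, sum_filter]
      refine sum_le_sum fun z _ => ?_
      by_cases hz : z ∉ P ∧ π.symm z ∉ B
      · rw [if_pos hz, hX'v, hXdef]
        unfold two
        rw [if_neg hz.2]
        by_cases hzL : π.symm z ∈ L
        · rw [if_pos hzL, if_pos ⟨hz.1, hzL⟩]
        · rw [if_neg hzL]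
          split_ifs
          · exact hζ.le
          · exact le_rfl
      · rw [if_neg hz]
        split_ifs
        · exact hζ.le
        · exact le_rfl
    refine h2.trans ?_
    rw [sum_const, nsmul_eq_mul]
    refine mul_le_mul_of_nonneg_right ?_ hζ.le
    have h3 : (univ.filter fun z => z ∉ P ∧ π.symm z ∈ L).card + P.card = L.card := by
      rw [← card_union_of_disjoint]
      · have h31 : L.card = (L.map π.toEmbedding).card := (card_map _).symm
        rw [h31]
        congr 1
        ext z
        simp only [mem_union, mem_filter, mem_univ, true_and, mem_map_equiv]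
        constructor
        · rintro (h | h)
          · exact h.2
          · rw [hP] at h
            simp only [mem_filter, mem_univ, true_and] at h
            exact h.1
        · intro h
          by_cases hz : z ∈ P
          · exact Or.inr hz
          · exact Or.inl ⟨hz, h⟩
      · rw [Finset.disjoint_left]
        intro z hz hz'
        simp only [mem_filter, mem_univ, true_and] at hz
        exact hz.1 hz'
    have h4 : ((univ.filter fun z => z ∉ P ∧ π.symm z ∈ L).card : ℝ) + P.card = L.card := by
      exact_mod_cast h3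
    linarith
  · have hc : IsCoupling X' (map g X') (fun x y => if g x = y then X' x else 0) := by
      refine ⟨?_, ?_, ?_⟩
      · intro x y
        split_ifs
        · exact hX'd.1 x
        · exact le_rfl
      · intro x
        rw [sum_ite_eq]
        simp
      · intro y
        rw [← sum_filter]
        rfl
    refine (emd_le hc).trans ?_
    unfold cost
    have h1 : ∀ x, ∑ y, (if g x = y then X' x else 0) * relDist x y = X' x * relDist x (g x) := by
      intro x
      simp only [ite_mul, zero_mul]
      rw [sum_ite_eq]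
      simp
    simp only [h1]
    have h2 : ∀ x, X' x * relDist x (g x) ≤ if x ∈ P then ζ / n else 0 := by
      intro x
      split_ifs with hx
      · have hgx : g x = φ x := by rw [hg]; simp [hx]
        rw [hgx]
        have hx' := hx
        rw [hP] at hx'
        simp only [mem_filter, mem_univ, true_and] at hx'
        have h3 : X' x = ζ := by
          rw [hX'v, hXdef]
          unfold two
          rw [if_neg (hdis _ hx'.1), if_pos hx'.1]
        rw [h3, div_eq_mul_one_div ζ]
        refine mul_le_mul_of_nonneg_left ?_ hζ.le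
        unfold relDist
        refine div_le_div_of_nonneg_right ?_ (Nat.cast_nonneg n)
        exact_mod_cast hφd x
      · have hgx : g x = x := by rw [hg]; simp [hx]
        rw [hgx]
        unfold relDist
        simp
    calc ∑ x, X' x * relDist x (g x) ≤ ∑ x, (if x ∈ P then ζ / n else 0) :=
          sum_le_sum fun x _ => h2 x
      _ = P.card * (ζ / n) := by
          rw [← sum_filter, sum_const, nsmul_eq_mul]
          congr 2
          rw [filter_mem_eq_inter, univ_inter]
      _ ≤ B.card * ζ / n := by
          rw [mul_div_assoc]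
          refine mul_le_mul_of_nonneg_right ?_ (by positivity)
          exact_mod_cast hPcard

/-! ### Balls and bijections -/

/-- Change the coordinate `i`. -/
def flip {n : ℕ} (i : Fin n) (z : Cube n) : Cube n := Function.update z i (!z i)

lemma flip_flip {n : ℕ} (i : Fin n) (z : Cube n) : flip i (flip i z) = z := by
  unfold flip
  funext j
  by_cases h : j = i
  · subst h
    simp
  · simp [Function.update_of_ne h]

lemma flip_dist {n : ℕ} (i : Fin n) (z : Cube n) : hammingDist z (flip i z) ≤ 1 := by
  unfold hammingDist flip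
  refine le_trans (card_le_card (t := {i}) ?_) (by simp)
  intro j hj
  simp only [mem_filter, mem_univ, true_and] at hj
  rw [mem_singleton]
  by_contra h
  exact hj (by rw [Function.update_of_ne h])

lemma flip_ne {n : ℕ} (i : Fin n) (z : Cube n) : flip i z ≠ z := by
  intro h
  have := congrFun h i
  simp [flip] at this

lemma ball_card {n : ℕ} (ρ : ℕ) (y : Cube n) :
    (univ.filter fun x : Cube n => hammingDist x y ≤ ρ).card ≤ (n + 1) ^ ρ := by
  classical
  induction ρ with
  | zero =>
    have : (univ.filter fun x : Cube n => hammingDist x y ≤ 0) = {y} := by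
      ext x
      simp
    rw [this]
    simp
  | succ ρ ih =>
    have hsub : (univ.filter fun x : Cube n => hammingDist x y ≤ ρ + 1) ⊆
        (univ.filter fun x : Cube n => hammingDist x y ≤ ρ) ∪
        ((univ.filter fun x : Cube n => hammingDist x y ≤ ρ) ×ˢ (univ : Finset (Fin n))).image
          (fun p => flip p.2 p.1) := by
      intro x hx
      simp only [mem_filter, mem_univ, true_and, mem_union, mem_image, mem_product, and_true,
        Prod.exists] at hx ⊢
      by_cases hxy : x = y
      · left
        subst hxy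
        simp
      · right
        have : ∃ i, x i ≠ y i := by
          by_contra h
          push Not at h
          exact hxy (funext h)
        obtain ⟨i, hi⟩ := this
        refine ⟨flip i x, i, ?_, flip_flip i x⟩
        have hlt : hammingDist (flip i x) y < hammingDist x y := by
          unfold hammingDist
          refine card_lt_card ?_
          rw [Finset.ssubset_iff_of_subset]
          · refine ⟨i, by simpa using hi, ?_⟩
            simp only [mem_filter, mem_univ, true_and, not_not]
            unfold flip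
            rw [Function.update_self]
            revert hi
            cases x i <;> cases y i <;> simp
          · intro j hj
            simp only [mem_filter, mem_univ, true_and] at hj ⊢
            by_cases hji : j = i
            · subst hji
              exact hi
            · unfold flip at hj
              rwa [Function.update_of_ne hji] at hj
        omega
    refine (card_le_card hsub).trans ?_
    refine (card_union_le _ _).trans ?_
    have h1 := card_image_le (s := (univ.filter fun x : Cube n => hammingDist x y ≤ ρ) ×ˢ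
      (univ : Finset (Fin n))) (f := fun p => flip p.2 p.1)
    rw [card_product, card_univ, Fintype.card_fin] at h1
    calc _ ≤ (univ.filter fun x : Cube n => hammingDist x y ≤ ρ).card +
          (univ.filter fun x : Cube n => hammingDist x y ≤ ρ).card * n := Nat.add_le_add_left h1 _
      _ = (univ.filter fun x : Cube n => hammingDist x y ≤ ρ).card * (n + 1) := by ring
      _ ≤ (n + 1) ^ ρ * (n + 1) := Nat.mul_le_mul_right _ ih
      _ = (n + 1) ^ (ρ + 1) := (pow_succ _ _).symm

/-- The partner of `x` under the bijection `π`. -/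
def partner {n : ℕ} (i : Fin n) (x : Cube n) (π : Equiv.Perm (Cube n)) : Cube n :=
  π.symm (flip i (π x))

lemma partner_ne {n : ℕ} (i : Fin n) (x : Cube n) (π : Equiv.Perm (Cube n)) :
    partner i x π ≠ x := by
  unfold partner
  intro h
  rw [Equiv.symm_apply_eq] at h
  exact flip_ne _ _ h

lemma partner_count {n : ℕ} (i : Fin n) (x u u' : Cube n) (hu : u ≠ x) (hu' : u' ≠ x) :
    (univ.filter fun π => partner i x π = u).card = (univ.filter fun π => partner i x π = u').card := by
  classical
  refine card_bijective (fun π : Equiv.Perm (Cube n) => π * Equiv.swap u u')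
    (Equiv.mulRight (Equiv.swap u u')).bijective ?_
  intro π
  simp only [mem_filter, mem_univ, true_and]
  have h1 : partner i x (π * Equiv.swap u u') = Equiv.swap u u' (partner i x π) := by
    unfold partner
    rw [Equiv.Perm.mul_apply, Equiv.swap_apply_of_ne_of_ne hu.symm hu'.symm]
    rw [Equiv.symm_apply_eq, Equiv.Perm.mul_apply, Equiv.swap_apply_self]
    simp
  rw [h1]
  constructor
  · intro h
    rw [h, Equiv.swap_apply_left]
  · intro h
    have h2 := congrArg (Equiv.swap u u') h
    rwa [Equiv.swap_apply_self, Equiv.swap_apply_right] at h2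

lemma partner_total {n : ℕ} (i : Fin n) (x : Cube n) (L : Finset (Cube n)) :
    (univ.filter fun π => partner i x π ∉ L).card * (2 ^ n - 1) ≤
      Lᶜ.card * Fintype.card (Equiv.Perm (Cube n)) := by
  classical
  obtain ⟨N, hN⟩ : ∃ N : ℕ, ∀ u, u ≠ x → (univ.filter fun π => partner i x π = u).card = N :=
    ⟨_, fun u hu => partner_count i x u (flip i x) hu (flip_ne i x)⟩
  have h1 : (univ.filter fun π => partner i x π ∉ L).card ≤ Lᶜ.card * N := by
    have h11 : (univ.filter fun π => partner i x π ∉ L).card =
        ∑ u ∈ Lᶜ, ((univ.filter fun π => partner i x π ∉ L).filter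
          fun π => partner i x π = u).card :=
      card_eq_sum_card_fiberwise (fun π hπ => by simpa using hπ)
    rw [h11, ← smul_eq_mul, ← sum_const]
    refine sum_le_sum fun u _ => ?_
    by_cases hux : u = x
    · have : ((univ.filter fun π => partner i x π ∉ L).filter
          fun π => partner i x π = u) = ∅ := by
        rw [filter_eq_empty_iff]
        intro π _ h
        exact partner_ne i x π (h.trans hux)
      rw [this]
      simp
    · rw [← hN u hux]
      refine card_le_card ?_
      intro π hπ
      simp only [mem_filter, mem_univ, true_and] at hπ ⊢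
      exact hπ.2
  have h2 : Fintype.card (Equiv.Perm (Cube n)) = (2 ^ n - 1) * N := by
    have h21 : (univ : Finset (Equiv.Perm (Cube n))).card =
        ∑ u ∈ univ.erase x, (univ.filter fun π => partner i x π = u).card :=
      card_eq_sum_card_fiberwise (fun π _ => by simpa using partner_ne i x π)
    rw [← card_univ, h21, sum_congr rfl fun u hu => hN u (ne_of_mem_erase hu), sum_const,
      card_erase_of_mem (mem_univ x), card_univ]
    simp
  rw [h2]
  calc (univ.filter fun π => partner i x π ∉ L).card * (2 ^ n - 1)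
      ≤ (Lᶜ.card * N) * (2 ^ n - 1) := Nat.mul_le_mul_right _ h1
    _ = Lᶜ.card * ((2 ^ n - 1) * N) := by ring

/-! ### The parameters -/

lemma eventually_big (r : ℕ) : ∀ᶠ n : ℕ in atTop, 4 * n * (n + 1) ^ (2 * r) ≤ 2 ^ n := by
  have h1 := tendsto_pow_const_div_const_pow_of_one_lt (2 * r + 2) (one_lt_two (α := ℝ))
  have h2 : ∀ᶠ n : ℕ in atTop, ((n : ℝ) ^ (2 * r + 2)) / 2 ^ n < 1 :=
    h1.eventually_lt_const one_pos
  filter_upwards [h2, eventually_ge_atTop (4 * 2 ^ (2 * r)), eventually_ge_atTop 1] with n hn hr h1n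
  have h3 : (n : ℝ) ^ (2 * r + 2) < 2 ^ n := by
    rwa [div_lt_one (by positivity)] at hn
  have h4 : n ^ (2 * r + 2) < 2 ^ n := by exact_mod_cast h3
  have h5 : (n + 1) ^ (2 * r) ≤ 2 ^ (2 * r) * n ^ (2 * r) := by
    rw [← mul_pow]
    exact Nat.pow_le_pow_left (by omega) _
  calc 4 * n * (n + 1) ^ (2 * r) ≤ 4 * n * (2 ^ (2 * r) * n ^ (2 * r)) :=
        Nat.mul_le_mul_left _ h5
    _ = (4 * 2 ^ (2 * r)) * n ^ (2 * r + 1) := by ring
    _ ≤ n * n ^ (2 * r + 1) := Nat.mul_le_mul_right _ hr
    _ = n ^ (2 * r + 2) := by ring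
    _ ≤ 2 ^ n := h4.le

lemma arith {c r n s ζ : ℝ} (hn : 0 < n) (hrc : 4 < c * (r + 1)) (hs : 0 < s * ζ) :
    2 * s * ζ / n < c * ((r + 1) / n * (s * ζ / 2)) := by
  have h3 : c * ((r + 1) / n * (s * ζ / 2)) = (c * (r + 1)) * (s * ζ / (2 * n)) := by
    field_simp
  have h4 : 2 * s * ζ / n = 4 * (s * ζ / (2 * n)) := by
    field_simp
    ring
  rw [h3, h4]
  exact mul_lt_mul_of_pos_right hrc (by positivity)

lemma main (c : ℝ) (hc : 0 < c) : ∃ C n₀ : ℕ, ∀ n : ℕ, n₀ ≤ n →
      ∃ (D : Set (Cube n → ℝ)) (X : Cube n → ℝ) (ε : ℝ),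
        (∀ Y ∈ D, IsDist Y) ∧ ClosedUnderMapping D ∧ IsDist X ∧ 1 / (n : ℝ) ^ C ≤ ε ∧ Far D ε X ∧
        (numFar D (c * ε) X : ℝ) ≤ 2 / n * (Fintype.card (Equiv.Perm (Cube n)) : ℝ) := by
  classical
  obtain ⟨r, hr⟩ : ∃ r : ℕ, r = ⌈4 / c⌉₊ := ⟨_, rfl⟩
  have hrc : 4 < c * (r + 1) := by
    have h1 : 4 / c ≤ r := by
      rw [hr]
      exact Nat.le_ceil _
    rw [div_le_iff₀ hc] at h1
    nlinarith
  obtain ⟨n₁, hn₁⟩ := eventually_atTop.1 (eventually_big r)
  refine ⟨4 * r + 7, max n₁ 2, fun n hn => ?_⟩
  have hbig := hn₁ n (le_trans (le_max_left _ _) hn)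
  have hn2 : 2 ≤ n := le_trans (le_max_right _ _) hn
  have hn0 : 0 < n := by omega
  have hnR : (0 : ℝ) < n := by exact_mod_cast hn0
  obtain ⟨A, hA⟩ : ∃ A : ℕ, A = 4 * n * (n + 1) ^ (2 * r) := ⟨_, rfl⟩
  rw [← hA] at hbig
  have hApos : 0 < A := by
    rw [hA]
    positivity
  obtain ⟨t, ht⟩ : ∃ t : ℕ, t = 2 ^ n / A := ⟨_, rfl⟩
  have ht1 : 1 ≤ t := by
    rw [ht]
    exact (Nat.one_le_div_iff hApos).2 hbig
  have htA : t * A ≤ 2 ^ n := by
    rw [ht]
    exact Nat.div_mul_le_self _ _
  have htA2 : 2 ^ n < (t + 1) * A := by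
    have := Nat.lt_div_mul_add (a := 2 ^ n) hApos
    rw [← ht] at this
    linarith
  have h2t : 2 * t ≤ 2 ^ n := by
    refine le_trans ?_ htA
    rw [mul_comm]
    refine Nat.mul_le_mul_left _ ?_
    rw [hA]
    have : 1 ≤ n * (n + 1) ^ (2 * r) := Nat.one_le_iff_ne_zero.2 (by positivity)
    nlinarith
  obtain ⟨B, -, hB⟩ := exists_subset_card_eq (s := (univ : Finset (Cube n))) (n := 2 * t)
    (by rw [card_univ]; simpa using h2t)
  obtain ⟨L, hL⟩ : ∃ L : Finset (Cube n), L = univ.filter fun y => ∀ x ∈ B,
      2 * r < hammingDist x y := ⟨_, rfl⟩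
  have hBL : ∀ x ∈ B, ∀ y ∈ L, 2 * r < hammingDist x y := by
    intro x hx y hy
    rw [hL] at hy
    simp only [mem_filter, mem_univ, true_and] at hy
    exact hy x hx
  have hdis : ∀ x ∈ L, x ∉ B := by
    intro x hx hxB
    have := hBL x hxB x hx
    simp at this
  have hLc : Lᶜ.card ≤ 2 * t * (n + 1) ^ (2 * r) := by
    have hsub : Lᶜ ⊆ B.biUnion fun x => univ.filter fun y => hammingDist y x ≤ 2 * r := by
      intro y hy
      rw [mem_compl, hL] at hy
      simp only [mem_filter, mem_univ, true_and] at hy
      push Not at hy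
      obtain ⟨x, hx, hxy⟩ := hy
      rw [mem_biUnion]
      refine ⟨x, hx, ?_⟩
      simp only [mem_filter, mem_univ, true_and]
      rw [hammingDist_comm]
      exact hxy
    refine (card_le_card hsub).trans (card_biUnion_le.trans ?_)
    calc ∑ x ∈ B, (univ.filter fun y => hammingDist y x ≤ 2 * r).card
        ≤ ∑ _x ∈ B, (n + 1) ^ (2 * r) := sum_le_sum fun x _ => ball_card (2 * r) x
      _ = 2 * t * (n + 1) ^ (2 * r) := by rw [sum_const, hB, smul_eq_mul]
  obtain ⟨K, hK⟩ : ∃ K : ℝ, K = 2 * ((n + 1 : ℕ) : ℝ) ^ r := ⟨_, rfl⟩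
  have hK0 : 0 < K := by
    rw [hK]
    positivity
  have hBR : (B.card : ℝ) = 2 * t := by rw [hB]; push_cast; ring
  have htR : (1 : ℝ) ≤ t := by exact_mod_cast ht1
  obtain ⟨M, hM⟩ : ∃ M : ℝ, M = K * B.card + L.card := ⟨_, rfl⟩
  have hM0 : 0 < M := by
    rw [hM, hBR]
    positivity
  obtain ⟨ζ, hζ⟩ : ∃ ζ : ℝ, ζ = 1 / M := ⟨_, rfl⟩
  have hζ0 : 0 < ζ := by
    rw [hζ]
    positivity
  have hXd : IsDist (two B L K ζ) := by
    constructor
    · intro x
      unfold two
      split_ifs
      · positivity
      · exact hζ0.le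
      · exact le_rfl
    · have h1 : ∀ x, two B L K ζ x = (if x ∈ B then K * ζ else 0) + (if x ∈ L then ζ else 0) := by
        intro x
        unfold two
        by_cases hxB : x ∈ B
        · have hxL : x ∉ L := fun h => hdis x h hxB
          simp [hxB, hxL]
        · simp [hxB]
      simp only [h1]
      rw [sum_add_distrib, ← sum_filter, ← sum_filter, sum_const, sum_const, filter_mem_eq_inter,
        filter_mem_eq_inter, univ_inter, univ_inter, nsmul_eq_mul, nsmul_eq_mul]
      have : (B.card : ℝ) * (K * ζ) + L.card * ζ = M * ζ := by rw [hM]; ring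
      rw [this, hζ]
      field_simp
  have hV : ∀ y : Cube n, ((univ.filter fun x => hammingDist x y ≤ r).card : ℝ) ≤
      ((n + 1 : ℕ) : ℝ) ^ r := by
    intro y
    exact_mod_cast ball_card r y
  obtain ⟨ε, hε⟩ : ∃ ε : ℝ, ε = ((r : ℝ) + 1) / n * (t * ζ / 2) := ⟨_, rfl⟩
  have hDdist : ∀ Y ∈ light (n := n) (K * ζ) ((L.card - t) * ζ), IsDist Y := fun Y hY => hY.1
  refine ⟨light (n := n) (K * ζ) ((L.card - t) * ζ), two B L K ζ, ε, hDdist, light_closed _ _, hXd,
    ?_, ?_, ?_⟩
  · -- the size of `ε`
    have hMle : M ≤ 2 * 2 ^ n := by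
      have h1 : (L.card : ℝ) ≤ 2 ^ n := by
        have : L.card ≤ 2 ^ n := by
          have := card_le_univ L
          simpa using this
        exact_mod_cast this
      have h2 : K * B.card ≤ 2 ^ n := by
        have h21 : 4 * (n + 1) ^ r * t ≤ 2 ^ n := by
          refine le_trans ?_ htA
          rw [mul_comm]
          refine Nat.mul_le_mul_left _ ?_
          rw [hA]
          have h3 : (n + 1) ^ r ≤ (n + 1) ^ (2 * r) := Nat.pow_le_pow_right (by omega) (by omega)
          nlinarith
        have h22 : (4 * ((n + 1 : ℕ) : ℝ) ^ r * t) ≤ 2 ^ n := by exact_mod_cast h21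
        rw [hK, hBR]
        linarith
      rw [hM]
      linarith
    have hζl : 1 / (2 * 2 ^ n) ≤ ζ := by
      rw [hζ]
      exact one_div_le_one_div_of_le hM0 hMle
    have htl : (2 : ℝ) ^ n ≤ 2 * t * A := by
      have h1 : 2 ^ n ≤ 2 * t * A := by
        refine htA2.le.trans ?_
        exact Nat.mul_le_mul_right _ (by omega)
      exact_mod_cast h1
    have hAle : (A : ℝ) ≤ 4 * n * (n : ℝ) ^ (4 * r) := by
      have h1 : A ≤ 4 * n * n ^ (4 * r) := by
        rw [hA]
        refine Nat.mul_le_mul_left _ ?_
        have h2 : n + 1 ≤ n ^ 2 := by nlinarith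
        calc (n + 1) ^ (2 * r) ≤ (n ^ 2) ^ (2 * r) := Nat.pow_le_pow_left h2 _
          _ = n ^ (4 * r) := by rw [← pow_mul]; congr 1; ring
      exact_mod_cast h1
    have hstep : 1 / (4 * (A : ℝ)) ≤ t * ζ := by
      have hAR : (0 : ℝ) < A := by exact_mod_cast hApos
      calc 1 / (4 * (A : ℝ)) = (2 ^ n / (2 * A)) * (1 / (2 * 2 ^ n)) := by
            field_simp
            norm_num
        _ ≤ t * ζ := by
            refine mul_le_mul ?_ hζl (by positivity) (by positivity)
            rw [div_le_iff₀ (by positivity)]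
            linarith
    have hAR : (0 : ℝ) < A := by exact_mod_cast hApos
    have h5 : 1 / (n : ℝ) * (1 / (4 * (A : ℝ)) / 2) ≤ ε := by
      rw [hε]
      refine mul_le_mul ?_ ?_ (by positivity) (by positivity)
      · refine div_le_div_of_nonneg_right ?_ hnR.le
        have : (0 : ℝ) ≤ r := Nat.cast_nonneg r
        linarith
      · linarith
    refine le_trans ?_ h5
    have h6 : 1 / (n : ℝ) * (1 / (4 * (A : ℝ)) / 2) = 1 / (8 * n * A) := by
      field_simp
      norm_num
    rw [h6]
    refine one_div_le_one_div_of_le (by positivity) ?_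
    have hn2R : (2 : ℝ) ≤ n := by exact_mod_cast hn2
    calc 8 * (n : ℝ) * A ≤ 8 * n * (4 * n * (n : ℝ) ^ (4 * r)) := by
          exact mul_le_mul_of_nonneg_left hAle (by positivity)
      _ = 2 ^ 5 * (n : ℝ) ^ 2 * (n : ℝ) ^ (4 * r) := by ring
      _ ≤ (n : ℝ) ^ 5 * (n : ℝ) ^ 2 * (n : ℝ) ^ (4 * r) := by gcongr
      _ = (n : ℝ) ^ (4 * r + 7) := by ring
  · -- `X` is far
    intro Y hY
    refine le_emd hXd hY.1 fun w hw => ?_
    rw [hε]
    exact lower B L hBL hζ0 hV hK.ge hY.2 hw
  · -- `π(X)` is not far
    obtain ⟨i, -⟩ : ∃ i : Fin n, i = ⟨0, hn0⟩ := ⟨_, rfl⟩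
    obtain ⟨good, hgood⟩ : ∃ good : Equiv.Perm (Cube n) → ℕ,
        good = fun π => (B.filter fun x => partner i x π ∈ L).card := ⟨_, rfl⟩
    have hkey : ∀ π : Equiv.Perm (Cube n), t ≤ good π →
        ¬ Far (light (n := n) (K * ζ) ((L.card - t) * ζ)) (c * ε) (map π (two B L K ζ)) := by
      intro π hπ hfar
      have hle : good π ≤ (univ.filter fun z => π.symm z ∈ L ∧ π.symm (flip i z) ∈ B).card := by
        rw [hgood]
        refine card_le_card_of_injOn (fun x => flip i (π x)) ?_ ?_
        · intro x hx
          have hx' : x ∈ B ∧ partner i x π ∈ L := by simpa using hx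
          have hgoal : flip i (π x) ∈
              (univ.filter fun z => π.symm z ∈ L ∧ π.symm (flip i z) ∈ B) := by
            simp only [mem_filter, mem_univ, true_and]
            refine ⟨hx'.2, ?_⟩
            rw [flip_flip, Equiv.symm_apply_apply]
            exact hx'.1
          exact hgoal
        · intro x _ x' _ h
          have h1 : flip i (flip i (π x)) = flip i (flip i (π x')) := congrArg (flip i) h
          rw [flip_flip, flip_flip] at h1
          exact π.injective h1
      have hle' : (t : ℝ) ≤
          ((univ.filter fun z => π.symm z ∈ L ∧ π.symm (flip i z) ∈ B).card : ℝ) := by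
        exact_mod_cast hπ.trans hle
      obtain ⟨Y, hYD, hY⟩ := upper B L hdis hζ0 hXd (flip i) (flip_flip i) (flip_dist i) π hle'
      have h1 := hfar Y hYD
      rw [hBR] at hY
      have h2 : 2 * (t : ℝ) * ζ / n < c * ε := by
        rw [hε]
        exact arith hnR hrc (by positivity)
      linarith
    have hnum : numFar (light (n := n) (K * ζ) ((L.card - t) * ζ)) (c * ε) (two B L K ζ) ≤
        (univ.filter fun π : Equiv.Perm (Cube n) => good π < t).card := by
      unfold numFar
      refine card_le_card ?_
      intro π hπ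
      simp only [mem_filter, mem_univ, true_and] at hπ ⊢
      by_contra h
      exact hkey π (not_lt.1 h) hπ
    -- Markov's inequality
    have hbad : ∀ π : Equiv.Perm (Cube n),
        good π + (B.filter fun x => partner i x π ∉ L).card = 2 * t := by
      intro π
      rw [hgood, ← hB]
      exact card_filter_add_card_filter_not _
    have hmark : (univ.filter fun π : Equiv.Perm (Cube n) => good π < t).card * t ≤
        ∑ π : Equiv.Perm (Cube n), (B.filter fun x => partner i x π ∉ L).card := by
      calc (univ.filter fun π : Equiv.Perm (Cube n) => good π < t).card * t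
          = ∑ π with good π < t, t := by rw [sum_const, smul_eq_mul]
        _ ≤ ∑ π with good π < t, (B.filter fun x => partner i x π ∉ L).card := by
            refine sum_le_sum fun π hπ => ?_
            have h1 : good π < t := by simpa using hπ
            have := hbad π
            omega
        _ ≤ _ := sum_le_sum_of_subset (subset_univ _)
    have hswap : ∑ π : Equiv.Perm (Cube n), (B.filter fun x => partner i x π ∉ L).card =
        ∑ x ∈ B, (univ.filter fun π => partner i x π ∉ L).card := by
      simp only [card_filter]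
      exact sum_comm
    have htot : (∑ x ∈ B, (univ.filter fun π => partner i x π ∉ L).card) * (2 ^ n - 1) ≤
        (2 * t) * (Lᶜ.card * Fintype.card (Equiv.Perm (Cube n))) := by
      rw [sum_mul, ← hB, ← smul_eq_mul (B.card), ← sum_const]
      exact sum_le_sum fun x _ => partner_total i x L
    generalize Fintype.card (Equiv.Perm (Cube n)) = F at htot ⊢
    obtain ⟨G, hG⟩ : ∃ G, G = (univ.filter fun π : Equiv.Perm (Cube n) => good π < t).card :=
      ⟨_, rfl⟩
    rw [← hG] at hnum hmark
    have h1 : (G * t) * (2 ^ n - 1) ≤ (2 * t) * (Lᶜ.card * F) := by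
      refine le_trans (Nat.mul_le_mul_right _ ?_) htot
      rw [← hswap]
      exact hmark
    have h2 : G * (2 ^ n - 1) ≤ 2 * (Lᶜ.card * F) := by
      have h21 : t * (G * (2 ^ n - 1)) ≤ t * (2 * (Lᶜ.card * F)) := by
        calc t * (G * (2 ^ n - 1)) = (G * t) * (2 ^ n - 1) := by ring
          _ ≤ (2 * t) * (Lᶜ.card * F) := h1
          _ = t * (2 * (Lᶜ.card * F)) := by ring
      exact Nat.le_of_mul_le_mul_left h21 ht1
    have h3 : n * (2 * Lᶜ.card) ≤ 2 ^ n := by
      refine le_trans ?_ htA
      calc n * (2 * Lᶜ.card) ≤ n * (2 * (2 * t * (n + 1) ^ (2 * r))) :=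
            Nat.mul_le_mul_left _ (Nat.mul_le_mul_left _ hLc)
        _ = t * A := by rw [hA]; ring
    have h4 : (n * G) * (2 ^ n - 1) ≤ 2 ^ n * F := by
      calc (n * G) * (2 ^ n - 1) = n * (G * (2 ^ n - 1)) := by ring
        _ ≤ n * (2 * (Lᶜ.card * F)) := Nat.mul_le_mul_left _ h2
        _ = (n * (2 * Lᶜ.card)) * F := by ring
        _ ≤ 2 ^ n * F := Nat.mul_le_mul_right _ h3
    have h5 : 2 ^ n ≤ 2 * (2 ^ n - 1) := by
      have : 2 ≤ 2 ^ n := by
        calc 2 = 2 ^ 1 := by norm_num
          _ ≤ 2 ^ n := Nat.pow_le_pow_right (by norm_num) hn0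
      omega
    have h6 : n * G ≤ 2 * F := by
      have h61 : (2 ^ n - 1) * (n * G) ≤ (2 ^ n - 1) * (2 * F) := by
        calc (2 ^ n - 1) * (n * G) = (n * G) * (2 ^ n - 1) := by ring
          _ ≤ 2 ^ n * F := h4
          _ ≤ (2 * (2 ^ n - 1)) * F := Nat.mul_le_mul_right _ h5
          _ = (2 ^ n - 1) * (2 * F) := by ring
      refine Nat.le_of_mul_le_mul_left h61 ?_
      have : 2 ≤ 2 ^ n := by
        calc 2 = 2 ^ 1 := by norm_num
          _ ≤ 2 ^ n := Nat.pow_le_pow_right (by norm_num) hn0
      omega
    have h7 : (n : ℝ) * G ≤ 2 * F := by exact_mod_cast h6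
    have h8 : (numFar (light (n := n) (K * ζ) ((L.card - t) * ζ)) (c * ε) (two B L K ζ) : ℝ) ≤ G := by
      exact_mod_cast hnum
    refine h8.trans ?_
    rw [div_mul_eq_mul_div, le_div_iff₀ hnR]
    linarith

/-- **Q1 has a negative answer.** For every `c > 0` there is an exponent `C` such that for all large
`n` there are a property `D` of distributions on `{0, 1} ^ n` which is closed under mapping, a
number `ε ≥ n ^ (-C)` and a distribution `X` which is `ε`-far from `D`, such that `π(X)` is
`c ε`-far from `D` only for a fraction of at most `2 / n` of the bijections `π`. In particular the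
statement of Q1 is false. -/
theorem result :
    (∀ c : ℝ, 0 < c → ∃ C n₀ : ℕ, ∀ n : ℕ, n₀ ≤ n →
      ∃ (D : Set (Cube n → ℝ)) (X : Cube n → ℝ) (ε : ℝ),
        (∀ Y ∈ D, IsDist Y) ∧ ClosedUnderMapping D ∧ IsDist X ∧ 1 / (n : ℝ) ^ C ≤ ε ∧ Far D ε X ∧
        (numFar D (c * ε) X : ℝ) ≤ 2 / n * (Fintype.card (Equiv.Perm (Cube n)) : ℝ)) ∧
    ¬ Q1 := by
  refine ⟨fun c hc => main c hc, ?_⟩
  rintro ⟨c, hc, δ, hδ, h⟩
  obtain ⟨C, n₀, hmain⟩ := main c hc
  have h1 : ∀ᶠ n in atTop, δ n < 1 / 2 := hδ.eventually_lt_const (by norm_num)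
  obtain ⟨n, hn1, hn2, hn3⟩ := (h1.and ((eventually_ge_atTop n₀).and
    (eventually_ge_atTop 5))).exists
  obtain ⟨D, X, ε, hD, hcl, hX, hε, hfar, hnum⟩ := hmain n hn2
  have hn5 : (5 : ℝ) ≤ n := by exact_mod_cast hn3
  have hε0 : 0 < ε := lt_of_lt_of_le (by positivity) hε
  have h2 := h n (by omega) D hD hcl ε hε0 X hX hfar
  have hF : (0 : ℝ) < Fintype.card (Equiv.Perm (Cube n)) := by
    exact_mod_cast Fintype.card_pos
  have h3 : (1 - δ n) * (Fintype.card (Equiv.Perm (Cube n)) : ℝ) ≤
      2 / n * (Fintype.card (Equiv.Perm (Cube n)) : ℝ) := h2.trans hnum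
  have h4 : 1 - δ n ≤ 2 / n := le_of_mul_le_mul_right h3 hF
  have h5 : (2 : ℝ) / n ≤ 2 / 5 := div_le_div_of_nonneg_left (by norm_num) (by norm_num) hn5
  linarith

end Pool.Agent.Results.MP_3e89d2_lc.NoUniversalConstant
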